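import Pool.Agent.N325.DD.Stm

/-!
# The upper bound by the classes
-/

set_option autoImplicit false

namespace Pool.Agent.N325.DD

open Finset

/-- The largest admissible sets are bounded by the largest admissible sets of the classes. -/
theorem upper (K X n : ℕ) (hK : 1 ≤ K) :
    f n ≤ n / K + (Bad K X n).card + ∑ m ∈ R K n, g K X (n / m) := by
  classical
  obtain ⟨A, hA, hAd, hc⟩ := exists_mx (Finset.Icc 1 n)
  have hf : f n = A.card := by
    unfold f
    rw [← hc]
  rw [hf]
  let B : ℕ → Finset ℕ := fun m =>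
    (W K X).filter (fun s => (s ≤ n / m ∧ n / m < K * s) ∧ m * s ∈ A)
  have hsub : A ⊆ Finset.Icc 1 (n / K) ∪ Bad K X n ∪
      (R K n).biUnion (fun m => (B m).image (fun s => m * s)) := by
    intro a ha
    have han := Finset.mem_Icc.1 (hA ha)
    by_cases h1 : a ≤ n / K
    · exact Finset.mem_union_left _ (Finset.mem_union_left _ (Finset.mem_Icc.2 ⟨han.1, h1⟩))
    by_cases h2 : a ∈ Bad K X n
    · exact Finset.mem_union_left _ (Finset.mem_union_right _ h2)
    refine Finset.mem_union_right _ ?_
    rw [mem_Bad] at h2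
    have h3 : ∃ m ∈ R K n, ∃ s ∈ W K X, a = m * s := by
      by_contra h4
      exact h2 ⟨han, h4⟩
    obtain ⟨m, hm, s, hs, rfl⟩ := h3
    have hm1 : 0 < m := (mem_R.1 hm).1.1
    have h4 : n < K * (m * s) := by
      have h5 : n / K < m * s := not_le.1 h1
      have h6 := (Nat.div_lt_iff_lt_mul (by omega : 0 < K)).1 h5
      rw [Nat.mul_comm K]
      exact h6
    refine Finset.mem_biUnion.2 ⟨m, hm, Finset.mem_image.2 ⟨s, ?_, rfl⟩⟩
    refine Finset.mem_filter.2 ⟨hs, ⟨?_, ?_⟩, ha⟩
    · rw [Nat.le_div_iff_mul_le hm1, Nat.mul_comm]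
      exact han.2
    · rw [Nat.div_lt_iff_lt_mul hm1]
      calc n < K * (m * s) := h4
        _ = K * s * m := by ring
  have hB : ∀ m ∈ R K n, (B m).card ≤ g K X (n / m) := by
    intro m hm
    have hm1 : 0 < m := (mem_R.1 hm).1.1
    refine card_le_mx ?_ ?_
    · intro s hs t ht u hu hst hsu htu hd
      have hs' := (Finset.mem_filter.1 hs).2.2
      have ht' := (Finset.mem_filter.1 ht).2.2
      have hu' := (Finset.mem_filter.1 hu).2.2
      refine hAd (m * s) hs' (m * t) ht' (m * u) hu' ?_ ?_ ?_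
        ⟨Nat.mul_dvd_mul_left m hd.1, Nat.mul_dvd_mul_left m hd.2⟩
      · intro h
        exact hst (Nat.eq_of_mul_eq_mul_left hm1 h)
      · intro h
        exact hsu (Nat.eq_of_mul_eq_mul_left hm1 h)
      · intro h
        exact htu (Nat.eq_of_mul_eq_mul_left hm1 h)
    · intro s hs
      have h1 := Finset.mem_filter.1 hs
      exact Finset.mem_filter.2 ⟨h1.1, h1.2.1⟩
  calc A.card ≤ (Finset.Icc 1 (n / K) ∪ Bad K X n ∪
        (R K n).biUnion (fun m => (B m).image (fun s => m * s))).card := Finset.card_le_card hsub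
    _ ≤ (Finset.Icc 1 (n / K) ∪ Bad K X n).card +
        ((R K n).biUnion (fun m => (B m).image (fun s => m * s))).card :=
        Finset.card_union_le _ _
    _ ≤ ((Finset.Icc 1 (n / K)).card + (Bad K X n).card) +
        ∑ m ∈ R K n, ((B m).image (fun s => m * s)).card :=
        Nat.add_le_add (Finset.card_union_le _ _) Finset.card_biUnion_le
    _ ≤ (n / K + (Bad K X n).card) + ∑ m ∈ R K n, g K X (n / m) := by
        refine Nat.add_le_add ?_ ?_
        · rw [Nat.card_Icc, Nat.add_sub_cancel]
        · exact Finset.sum_le_sum (fun m hm => Finset.card_image_le.trans (hB m hm))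

end Pool.Agent.N325.DD
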